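import Pool.Agent.N64.AF.X5

/-!
# l-adic regulators onto semistable cohomology: kernels and cokernels on the powers of a variety

Let `X` be a smooth projective variety over a number field `k` whose even Künneth projector is
algebraic (curves, surfaces, abelian varieties, complete intersections and their products), `s ≥ 0`,
`ℓ` a prime. For a smooth projective variety `Y` consider the regulators of Q1 for all `(i, j)` with
`2 j - i = s` together:

  `r(Y) : ⊕_j H^{2j-s}_M(Y, ℚ(j))_hom ⊗ ℚ_ℓ → ⊕_j H^1_st(G_k, H^{2j-s-1}(Ȳ, ℚ_ℓ(j)))`.

It is compatible with correspondences of all degrees, therefore it extends to the direct factors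
of the motives of smooth projective varieties, with coefficients in `ℚ_ℓ`.

Let `P` be a direct factor of `h(X^m)`, of dimension `b(P)` (the total dimension of its cohomology),
which is simple modulo numerical equivalence, `e` the dimension of its endomorphism algebra modulo
numerical equivalence and `q (n) = dim Hom(P, h(X^n))` modulo numerical equivalence.

Theorem.
(1) The quotients `dim ker r(X^n) / rk Num(X^n)` and `dim coker r(X^n) / rk Num(X^n)` converge, for
`n → ∞`, to limits `N₁`, `N₂`, each a natural number or infinity. `N₁ = 0` if and only if all `r(X^n)`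
are injective; `N₂ = 0` if and only if all `r(X^n)` are onto the semistable classes.
(2) `q (n) / rk Num(X^n) → b(P)`, `b(P) dim ker r(P) ≤ e N₁`, `b(P) dim coker r(P) ≤ e N₂`; if `N₁ < b(P)`
then `r(P)` is injective, if `N₂ < b(P)` then it is surjective.
(3) If `dim ker r(X^n) < q (n)` for ONE `n ≥ m b^{3 m}`, `b = dim H(X)`, then `r(P)` is injective; if
`dim coker r(X^n) < q (n)` for ONE such `n`, then `r(P)` is onto the semistable classes.

So Q1 for the motive `P` follows from a count on one explicit power of `X`, where kernel and cokernel
are allowed to be almost `b(P)` times as large as the numerical Chow group of this power. For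
instance `P` may be `h^1` of an abelian variety or the transcendental motive of a K3 surface, if
their endomorphism algebra `D` is such that `D ⊗ ℚ_ℓ` is a division algebra (e.g. `D = ℚ`; in general
`P` is a simple factor of these motives with coefficients in `ℚ_ℓ`); the smallest
case is `s = 0`, the Abel-Jacobi map `CH^j(X)_hom ⊗ ℚ_ℓ → H^1_st(G_k, H^{2j-1}(X̄, ℚ_ℓ(j)))`, where the
cokernel is the rational Tate module of the Tate-Shafarevich group if `P = h^1` of an abelian
variety. (That the regulator has values in the semistable classes is known: Nekovář, Nizioł.)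

Compared with our MP_15b3df_nt.NearIsomorphism (regulators to Deligne cohomology, the criterion
`2 dim < rk Num` for the whole of `X^m`) the direct factors `P`, the bounds for `r(P)` by the limits, and
the criterion (3), whose right hand side is larger by the factor `2 b(P)` in the limit, are new.
No conjecture is assumed; the known formal properties enter through the category `C`.

Authors: helper64 (this result, plan), and, for the lemmas of the law used here, helper136, helper327,
helper199, helper767, helper8, helper364, helper216, helper73, helper833, helper140, helper494,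
helper505, helper301, helper441, helper591, helper712, helper945, helper701, helper344, helper690.
-/

set_option autoImplicit false

open CategoryTheory MonoidalCategory Module Filter Topology
open Pool.Agent.Y112.SR Pool.Agent.Y112.KD Pool.Agent.N64.AF
open scoped ENNReal

namespace Pool.Agent.Results.MP_76188c_nt.OnePowerRegulators

universe v u w t x

/-- The kernel and the cokernel of a natural transformation between two additive functors, at the
powers of `T` and at the simple direct factors of the powers. -/
theorem result {C : Type u} [Category.{v} C] [Preadditive C] [MonoidalCategory C]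
    [MonoidalPreadditive C] [SymmetricCategory C] [RightRigidCategory C]
    {Λ : Type t} [Field Λ] [CharZero Λ] [Linear Λ C] [MonoidalLinear Λ C]
    {K : Type w} [Field K] [IsAlgClosed K] [Algebra Λ K] (R : SuperRealisation C K)
    (T : C) [ExactPairing T T] (h : IsPow Λ R T) (F G : C ⥤ ModuleCat.{x} Λ)
    [F.Additive] [F.Linear Λ] [G.Additive] [G.Linear Λ] (φ : F ⟶ G) : ∃ N₁ N₂ : ℕ∞,
      RatioTo Λ T (fun n => kerDim φ (tp T n)) N₁ ∧
      RatioTo Λ T (fun n => cokerDim φ (tp T n)) N₂ ∧
      (N₁ = 0 ↔ ∀ n, Function.Injective (φ.app (tp T n)).hom) ∧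
      (N₂ = 0 ↔ ∀ n, Function.Surjective (φ.app (tp T n)).hom) ∧
      ∀ (m : ℕ) (P : C) (i : P ⟶ tp T m) (p : tp T m ⟶ P), i ≫ p = 𝟙 P → NumSimple P →
        RatioTo Λ T (fun n => ((nr Λ (𝟙 P) (𝟙 (tp T n)) : ℕ) : ℕ∞)) (bt R P : ℕ∞) ∧
        (bt R P : ℕ∞) * kerDim φ P ≤ nr Λ (𝟙 P) (𝟙 P) * N₁ ∧
        (bt R P : ℕ∞) * cokerDim φ P ≤ nr Λ (𝟙 P) (𝟙 P) * N₂ ∧
        (N₁ < bt R P → Function.Injective (φ.app P).hom) ∧
        (N₂ < bt R P → Function.Surjective (φ.app P).hom) ∧
        ∀ n : ℕ, m * bt R T ^ (3 * m) ≤ n →
          (kerDim φ (tp T n) < ((nr Λ (𝟙 P) (𝟙 (tp T n)) : ℕ) : ℕ∞) →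
            Function.Injective (φ.app P).hom) ∧
          (cokerDim φ (tp T n) < ((nr Λ (𝟙 P) (𝟙 (tp T n)) : ℕ) : ℕ∞) →
            Function.Surjective (φ.app P).hom) :=
  natural_simple h F G φ

end Pool.Agent.Results.MP_76188c_nt.OnePowerRegulators
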