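import Mathlib
import Pool.Agent.R384.NormL
import Pool.Agent.N842.Prd

/-!
# Semistable classes for products of elliptic curves without CM over `ℚ(√-7)`: all twists

`K = ℚ(√-7)` with ring of integers `ℤ[ω]`, `ω² = ω - 2`; `(2) = (ω) (1 - ω)`. We consider the curves
`E_{t,d} : y² = x (x + d a²) (x + d b²)`, `t = (a, b, c)`, `a² = b² + c²`, `a` and `d` prime to `2`,
`ω² ∣ b`, `(1 - ω)² ∣ c`. The curve has ordinary or multiplicative reduction at `ω` and at `1 - ω`
after a quadratic twist, and the two kernels of reduction are two different lines of the Tate module.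
For `n` curves `E_1, ..., E_n` of the family and an integer `i`, the representation
`V = V_2(E_1) ⊗ ... ⊗ V_2(E_n) (-i)` is a direct summand of `H^n(X, ℚ_2(j))`, `j = n - i`,
`X = E_1 × ... × E_n`. We have `n ≤ 2 i + 1` if and only if `2 j ≤ n + 1`, that is if the weight of
`V` is at least `-1`; and if `n ≤ 2 i` then the motivic cohomology `H^{n+1}(X, ℚ(j))` is a `K`-group
of negative degree, so it is zero, and the `2`-adic regulator can be onto the semistable classes
only if there are none.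

Since the weight of `V` is at least `-1`, every class of `H¹(K, V)` which is unramified at almost all
places is unramified at all the places prime to `2`, by the purity of the monodromy filtration. At the
place `ω` the subspace `F` of `V` generated by the tensors `e (α 1) ⊗ ... ⊗ e (α n)` with more
than `i` factors in the kernel of reduction has positive Hodge–Tate weights, and the weights of `V / F`
are `≤ 0`. A class of `H¹(K_v, V)` is semistable if and only if its image in `H¹(K_v, V / F)` is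
unramified. The same is true at the other place above `2`.

Let `D = ± q_1 ... q_N` with distinct primes `q_j = 1` modulo `4`, `q_1 ... q_N = 5` modulo `8`, and
assume that the graph with the edges `{j, k}` for the pairs such that `q_j` is not a square modulo
`q_k` has an odd number of spanning trees.

Theorem: let `E_1, ..., E_n` be curves of the family with `d_1 ... d_n = D` modulo squares. If `-1` is
a square and `D` is not a square modulo the prime divisors `π` of the `a_k b_k c_k` with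
`(π, 2) = 1`, then for **all** `i` with `n ≤ 2 i + 1` every class of
`H¹(K, V_2(E_1) ⊗ ... ⊗ V_2(E_n) (-i))` which is unramified outside `2` and semistable at the two
places above `2` is zero. For every finite set of triples `(a, b, c)` there are infinitely many such
`D`. There are infinitely many triples, which define curves that are not isogenous over `ℚ̄`.

In particular let all the `d_k` be equal to `D`. Then by the Künneth formula the semistable classes of
`H¹(K, H^m(X, ℚ_2(j)))` vanish for the product `X` of any number of these curves, for all odd `m` and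
all `j` with `2 j ≤ m + 1`.
-/

set_option autoImplicit false

namespace Pool.Agent.Results.MP_76188c_nt.ProductsAllTwists

open WeierstrassCurve
open scoped Classical

/-! ### The curves -/

/-- An algebraic closure of `ℚ`. -/
abbrev QBar : Type := AlgebraicClosure ℚ

/-- The ring of integers `ℤ[ω]`, `ω² = ω - 2`, of `ℚ(√-7)`. -/
abbrev OK : Type := QuadraticAlgebra ℤ (-2) 1

/-- The element `ω`. -/
def om : OK := ⟨0, 1⟩

/-- The field `K = ℚ(w)`. It is `ℚ(√-7)` if `w² = w - 2`. -/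
noncomputable abbrev K (w : QBar) : IntermediateField ℚ QBar := IntermediateField.adjoin ℚ {w}

/-- `w` as an element of `K`. -/
noncomputable def gen (w : QBar) : K w := ⟨w, IntermediateField.mem_adjoin_simple_self ℚ w⟩

/-- The element `a + b ω` of `ℤ[ω]` as an element of the field `L`, `w` being the image of `ω`. -/
def emb {L : Type} [Ring L] (w : L) (z : OK) : L := z.re + z.im * w

/-- A triple of elements of `ℤ[ω]`. -/
structure Triple where
  (a b c : OK)

/-- The triples `(a, b, c)` such that `a² = b² + c²`, `a b c ≠ 0`, `a` is prime to `2`, `ω² ∣ b` and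
`(1 - ω)² ∣ c`. -/
structure Triple.Adm (t : Triple) : Prop where
  pyth : t.a ^ 2 = t.b ^ 2 + t.c ^ 2
  ne : t.a * t.b * t.c ≠ 0
  odd : IsCoprime t.a 2
  two : om ^ 2 ∣ t.b ∧ (1 - om) ^ 2 ∣ t.c

/-- The curve `y² = x (x + d a²) (x + d b²)`. -/
def curve {F : Type} [Field F] (d a b : F) : WeierstrassCurve F :=
  ⟨0, d * (a ^ 2 + b ^ 2), 0, d ^ 2 * a ^ 2 * b ^ 2, 0⟩

/-- The curve `E_{t,d} : y² = x (x + d a²) (x + d b²)` over `K`, `t = (a, b, c)`. -/
noncomputable def E (w : QBar) (t : Triple) (d : OK) : WeierstrassCurve (K w) :=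
  curve (emb (gen w) d) (emb (gen w) t.a) (emb (gen w) t.b)

/-- The absolute Galois group of `K`. -/
abbrev Gal (w : QBar) : Type := QBar ≃ₐ[K w] QBar

/-- The group `E_{t,d}(ℚ̄)`. -/
abbrev Pts (w : QBar) (t : Triple) (d : OK) : Type := ((E w t d).toAffine.baseChange QBar).Point

/-- The action of the Galois group on `E_{t,d}(ℚ̄)`. -/
noncomputable def act {w : QBar} {t : Triple} {d : OK} (σ : Gal w) : Pts w t d →+ Pts w t d :=
  Affine.Point.map (W' := (E w t d).toAffine) (S := K w) (F := QBar) (K := QBar) σ.toAlgHom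

/-! ### The Tate modules -/

/-- The sequences `e 0` and `e 1` are elements of the `2`-adic Tate module of the abelian group `A`,
and they are a basis of it. -/
structure IsBasis {A : Type} [AddCommGroup A] (e : Fin 2 → ℕ → A) : Prop where
  zero : ∀ i, e i 0 = 0
  double : ∀ i n, e i (n + 1) + e i (n + 1) = e i n
  span : ∀ (n : ℕ) (P : A), (2 ^ n : ℤ) • P = 0 → ∃ k : Fin 2 → ℤ, P = ∑ i, k i • e i n
  indep : ∀ (n : ℕ) (k : Fin 2 → ℤ), ∑ i, k i • e i n = 0 → ∀ i, (2 ^ n : ℤ) ∣ k i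

/-- `M` is the matrix of the endomorphism `f` of the abelian group `A` on the basis `e` of the
`2`-adic Tate module. -/
def ActsBy {A : Type} [AddCommGroup A] (f : A →+ A) (e : Fin 2 → ℕ → A)
    (M : Matrix (Fin 2) (Fin 2) ℤ_[2]) : Prop :=
  ∀ (n : ℕ) (k : Fin 2 → Fin 2 → ℤ), (∀ i j, (2 : ℤ_[2]) ^ n ∣ M i j - k i j) →
    ∀ j, f (e j n) = ∑ i, k i j • e i n

/-- The point `P` is zero, or its first coordinate `x` satisfies `|x + s| > 1 / 4`: in other words
`P` is in the kernel of the reduction for the coordinate `(x + s) / 4`. -/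
def InKer (ι : QBar →ₐ[ℚ] PadicAlgCl 2) (s : QBar) {W : Affine QBar} : W.Point → Prop
  | .zero => True
  | .some x _ _ => 1 / 4 < ‖ι (x + s)‖

/-- `e 0`, `e 1` is a basis of the `2`-adic Tate module of `E_{t,d}`, `ρ` is the action of the Galois
group on this basis, `e 0` is in the kernel of the reduction at the place `ι₁`, for the coordinate
`x / 4`, and `e 1` is in the kernel of the reduction at the place `ι₂`, for the coordinate
`(x + d a²) / 4`. -/
structure Frame {w : QBar} (ι₁ ι₂ : QBar →ₐ[ℚ] PadicAlgCl 2) (t : Triple) (d : OK)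
    (e : Fin 2 → ℕ → Pts w t d) (ρ : Gal w →* Matrix (Fin 2) (Fin 2) ℤ_[2]) : Prop where
  basis : IsBasis e
  acts : ∀ σ, ActsBy (act σ) e (ρ σ)
  ker₁ : ∀ n, InKer ι₁ 0 (e 0 n)
  ker₂ : ∀ n, InKer ι₂ (emb w (d * t.a ^ 2)) (e 1 n)

/-! ### The semistable classes -/

/-- The inertia group of the place of `K` given by the embedding `ι` of `ℚ̄`: the elements which
extend to automorphisms of `ℚ̄_p` which are trivial on the residue field. -/
def Inr {w : QBar} {p : ℕ} [Fact p.Prime] (ι : QBar →ₐ[ℚ] PadicAlgCl p) : Set (Gal w) :=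
  {σ | ∃ τ : PadicAlgCl p ≃ₐ[ℚ_[p]] PadicAlgCl p, (∀ x, τ (ι x) = ι (σ x)) ∧
    ∀ z : PadicAlgCl p, ‖z‖ ≤ 1 → ‖τ z - z‖ < 1}

/-- The `2`-adic cyclotomic character. -/
noncomputable def cyc (w : QBar) : Gal w →* ℤ_[2]ˣ :=
  (cyclotomicCharacter QBar 2).comp (MulSemiringAction.toRingAut (Gal w) QBar)

/-- The action of the group `G` on `V_1 ⊗ ... ⊗ V_n ⊗ χ⁻ⁱ`, where `ρ k` is the action on the basis
`e 0`, `e 1` of `V_k`. The coordinate `α` is the coefficient of `e (α 1) ⊗ ... ⊗ e (α n)`. -/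
noncomputable def tens {G : Type} [Group G] {n : ℕ} (ρ : Fin n → G →* Matrix (Fin 2) (Fin 2) ℤ_[2])
    (χ : G →* ℤ_[2]ˣ) (i : ℕ) (σ : G) (v : (Fin n → Fin 2) → ℚ_[2]) : (Fin n → Fin 2) → ℚ_[2] :=
  fun α => ∑ β, ((((χ σ)⁻¹ ^ i : ℤ_[2]ˣ) * ∏ k, ρ k σ (α k) (β k) : ℤ_[2]) : ℚ_[2]) * v β

/-- `c` is a continuous cocycle of `G` with values in `ℚ_2 ^ B`, where `σ` acts by `A σ`. -/
structure IsCocycle {G B : Type} [Group G] [TopologicalSpace G]
    (A : G → (B → ℚ_[2]) → B → ℚ_[2]) (c : G → B → ℚ_[2]) : Prop where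
  cont : Continuous c
  mul : ∀ σ τ, c (σ * τ) = c σ + A σ (c τ)

/-- The restriction of the cocycle `c` to the subset `H` of `G` is the coboundary of a vector `y` as
far as the coordinates `α ∈ S` are concerned. -/
def TrivialOn {G B : Type} (A : G → (B → ℚ_[2]) → B → ℚ_[2]) (H : Set G) (S : Set B)
    (c : G → B → ℚ_[2]) : Prop :=
  ∃ y : B → ℚ_[2], ∀ σ ∈ H, ∀ α ∈ S, c σ α = A σ y α - y α

/-- The number of the coordinates of `α` which are equal to `s`. -/
def count {n : ℕ} (α : Fin n → Fin 2) (s : Fin 2) : ℕ := (Finset.univ.filter fun k => α k = s).card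

/-- The class of `c` in `H¹(K, V)`, `V = V_1 ⊗ ... ⊗ V_n (-i)`, is unramified outside `2` and
semistable at the places above `2`: it is trivial on the inertia groups of the places prime to `2`; at
the place `ι₁` its image in `V / F` is trivial on the inertia group, where `F` is generated by the
tensors `e (α 1) ⊗ ... ⊗ e (α n)` with more than `i` factors `e 0`, and at the place `ι₂` the same
with `e 1` instead of `e 0`. -/
structure IsSemistable {w : QBar} (ι₁ ι₂ : QBar →ₐ[ℚ] PadicAlgCl 2) {n : ℕ} (i : ℕ)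
    (A : Gal w → ((Fin n → Fin 2) → ℚ_[2]) → (Fin n → Fin 2) → ℚ_[2])
    (c : Gal w → (Fin n → Fin 2) → ℚ_[2]) : Prop where
  odd : ∀ (p : ℕ) [Fact p.Prime] (ι : QBar →ₐ[ℚ] PadicAlgCl p), p ≠ 2 →
    TrivialOn A (Inr ι) Set.univ c
  two₁ : TrivialOn A (Inr ι₁) {α | count α 0 ≤ i} c
  two₂ : TrivialOn A (Inr ι₂) {α | count α 1 ≤ i} c

/-- All these classes are trivial. -/
def SemistableZero {w : QBar} (ι₁ ι₂ : QBar →ₐ[ℚ] PadicAlgCl 2) {n : ℕ} (i : ℕ)
    (A : Gal w → ((Fin n → Fin 2) → ℚ_[2]) → (Fin n → Fin 2) → ℚ_[2]) : Prop :=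
  ∀ c, IsCocycle A c → IsSemistable ι₁ ι₂ i A c → TrivialOn A Set.univ Set.univ c

/-! ### The twists -/

/-- `x` is a square modulo `q`. -/
def IsSquareMod (q x : OK) : Prop := ∃ y : OK, q ∣ x - y ^ 2

/-- `D = ± q_1 ... q_n`, the `q_i` are distinct primes congruent to `1` modulo `4`, their product is
congruent to `5` modulo `8`, and the only ways to write `{1, ..., n}` as the union of two disjoint
subsets `S` and `T` such that the product of the `q_k`, `k ∈ S`, is a square modulo the `q_i`,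
`i ∈ T`, and conversely, are the trivial ones. By quadratic reciprocity, this means that the graph
with edges `{i, k}` for the pairs such that `q_i` is not a square modulo `q_k` has an odd number
of spanning trees. -/
structure Good {n : ℕ} (q : Fin n → OK) (D : OK) : Prop where
  prime : ∀ i, Prime (q i)
  one : ∀ i, (4 : OK) ∣ q i - 1
  inj : Function.Injective q
  prod : D = ∏ i, q i ∨ D = -∏ i, q i
  five : (8 : OK) ∣ ∏ i, q i - 5
  indec : ∀ S : Finset (Fin n), (∀ i, i ∉ S → IsSquareMod (q i) (∏ k ∈ S, q k)) →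
    (∀ i, i ∈ S → IsSquareMod (q i) (∏ k ∈ Sᶜ, q k)) → S = ∅ ∨ S = Finset.univ

/-- `π` is a prime, it does not divide `2`, and it divides `a b c`, `t = (a, b, c)`. -/
def BadPrime (t : Triple) (π : OK) : Prop := Prime π ∧ ¬ π ∣ 2 ∧ π ∣ t.a * t.b * t.c

/-- `-1` is a square modulo the bad primes. -/
def Fine (t : Triple) : Prop := ∀ π, BadPrime t π → IsSquareMod π (-1)

/-- `D` is not a square modulo the bad primes. -/
def NonSquare (t : Triple) (D : OK) : Prop := ∀ π, BadPrime t π → ¬ IsSquareMod π D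

/-! ### The proof -/

section proof

open Pool.Agent.Y676.IS (Cu some_congr)
open Pool.Agent.R384 (al be em LD ac Pt Rg sP Bs Acts gH)

variable {w : QBar} (hw : w ^ 2 = w - 2) {t : Triple} {d : OK}

lemma emb_eq (z : OK) : ((emb (gen w) z : K w) : QBar) = em hw z := by
  unfold emb
  rw [Pool.Agent.R384.em_apply]
  push_cast
  rfl

lemma emb_eq' (z : OK) : emb w z = em hw z := by
  unfold emb
  rw [Pool.Agent.R384.em_apply]

lemma curve_eq : (E w t d).toAffine.baseChange QBar =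
    Cu (al (em hw d) (em hw t.a) (em hw t.b)) (be (em hw d) (em hw t.a) (em hw t.b)) := by
  have h1 : ∀ z, algebraMap (K w) QBar (emb (gen w) z) = em hw z := emb_eq hw
  unfold E curve Cu al be WeierstrassCurve.Affine.baseChange WeierstrassCurve.toAffine
  ext
  · exact map_zero _
  · show algebraMap (K w) QBar (emb (gen w) d * (emb (gen w) t.a ^ 2 + emb (gen w) t.b ^ 2)) = _
    rw [map_mul, map_add, map_pow, map_pow, h1, h1, h1]
  · exact map_zero _
  · show algebraMap (K w) QBar (emb (gen w) d ^ 2 * emb (gen w) t.a ^ 2 * emb (gen w) t.b ^ 2) = _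
    rw [map_mul, map_mul, map_pow, map_pow, map_pow, h1, h1, h1]
  · exact map_zero _

/-- the points of equal curves -/
noncomputable def tr {W W' : Affine QBar} (h : W = W') : W.Point ≃+ W'.Point := by
  subst h
  exact AddEquiv.refl _

lemma tr_some {W W' : Affine QBar} (h : W = W') {a b : QBar} (hab : W.Nonsingular a b) :
    tr h (.some a b hab) = .some a b (h ▸ hab) := by
  subst h
  rfl

lemma tr_act (h : LD (em hw d) (em hw t.a) (em hw t.b) (em hw t.c)) (σ : Gal w) (P : Pts w t d) :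
    tr (curve_eq hw) (act σ P) = ac hw h σ (tr (curve_eq hw) P) := by
  rcases P with _ | ⟨a, b, hab⟩
  · show tr (curve_eq hw) (act σ 0) = ac hw h σ (tr (curve_eq hw) 0)
    simp only [map_zero]
  · rw [tr_some (curve_eq hw) hab]
    exact tr_some (curve_eq hw) (a := σ.toAlgHom a) (b := σ.toAlgHom b)
      ((Affine.baseChange_nonsingular (E w t d).toAffine σ.toAlgHom.injective ..).mpr hab)

lemma d_ne {d : OK} (hd : IsCoprime d 2) : d ≠ 0 := by
  rintro rfl
  have h1 : IsUnit (2 : OK) := isCoprime_zero_left.1 hd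
  rw [Pool.Agent.R384.unit_iff] at h1
  have h2 : Pool.Agent.R384.nn (2 : OK) = 4 := by
    have := Pool.Agent.R384.nn_int 2
    push_cast at this
    rw [this]
  rw [h2] at h1
  norm_num at h1

lemma elliptic (ht : t.Adm) (hd : IsCoprime d 2) (hw : w ^ 2 = w - 2) : (E w t d).IsElliptic := by
  have hne : ∀ z : OK, z ≠ 0 → (emb (gen w) z : K w) ≠ 0 := by
    intro z hz h
    have h1 := emb_eq hw z
    rw [h] at h1
    exact hz (Pool.Agent.R384.em_inj hw h1.symm)
  have habc := ht.ne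
  have ha : t.a ≠ 0 := fun h => habc (by rw [h]; ring)
  have hb : t.b ≠ 0 := fun h => habc (by rw [h]; ring)
  have hc : t.c ≠ 0 := fun h => habc (by rw [h]; ring)
  have hp : (emb (gen w) t.a : K w) ^ 2 = emb (gen w) t.b ^ 2 + emb (gen w) t.c ^ 2 := by
    apply Subtype.ext
    push_cast
    rw [emb_eq hw, emb_eq hw, emb_eq hw, ← map_pow, ← map_pow, ← map_pow, ← map_add, ht.pyth]
  rw [WeierstrassCurve.isElliptic_iff, isUnit_iff_ne_zero]
  have e : (E w t d).Δ = 16 * emb (gen w) d ^ 6 * (emb (gen w) t.a * emb (gen w) t.b *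
      emb (gen w) t.c) ^ 4 := by
    simp only [E, curve, WeierstrassCurve.Δ, WeierstrassCurve.b₂, WeierstrassCurve.b₄,
      WeierstrassCurve.b₆, WeierstrassCurve.b₈]
    generalize emb (gen w) d = d' at *
    generalize emb (gen w) t.a = a at *
    generalize emb (gen w) t.b = b at *
    generalize emb (gen w) t.c = c at *
    linear_combination (16 * d' ^ 6 * a ^ 4 * b ^ 4 * (a ^ 2 - b ^ 2 + c ^ 2)) * hp
  rw [e]
  exact mul_ne_zero (mul_ne_zero (by norm_num) (pow_ne_zero _ (hne _ (d_ne hd)))) (pow_ne_zero _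
    (mul_ne_zero (mul_ne_zero (hne _ ha) (hne _ hb)) (hne _ hc)))

lemma ld (ht : t.Adm) (hd : IsCoprime d 2) : LD (em hw d) (em hw t.a) (em hw t.b) (em hw t.c) := by
  have habc := ht.ne
  refine ⟨Pool.Agent.R384.em_ne hw (d_ne hd), Pool.Agent.R384.em_ne hw fun h => habc (by rw [h]; ring),
    Pool.Agent.R384.em_ne hw fun h => habc (by rw [h]; ring),
    Pool.Agent.R384.em_ne hw fun h => habc (by rw [h]; ring), ?_⟩
  rw [← map_pow, ← map_pow, ← map_pow, ← map_add, ht.pyth]

lemma inKer_iff {ι : QBar →ₐ[ℚ] PadicAlgCl 2} (P : Pts w t d)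
    (h : Rg (ι : QBar →+* PadicAlgCl 2) (tr (curve_eq hw) P)) : InKer ι 0 P := by
  rcases P with _ | ⟨x, y, hxy⟩
  · trivial
  · rw [tr_some (curve_eq hw) hxy] at h
    show 1 / 4 < ‖ι (x + 0)‖
    rw [add_zero]
    exact h

lemma inKer_iff' {ι : QBar →ₐ[ℚ] PadicAlgCl 2}
    (h' : LD (em hw d) (em hw t.a) (em hw t.b) (em hw t.c)) (P : Pts w t d)
    (h : Rg (ι : QBar →+* PadicAlgCl 2) (sP h' (tr (curve_eq hw) P))) :
    InKer ι (emb w (d * t.a ^ 2)) P := by
  rcases P with _ | ⟨x, y, hxy⟩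
  · trivial
  · rw [tr_some (curve_eq hw) hxy] at h
    show 1 / 4 < ‖ι (x + emb w (d * t.a ^ 2))‖
    rw [emb_eq' hw, map_mul, map_pow]
    exact h

/-- the frame of a curve -/
lemma exists_frame (ht : t.Adm) (hd : IsCoprime d 2) {r I : QBar} (hr : r ^ 2 = em hw d)
    (hI : I ^ 2 = -1) {ι₁ ι₂ : QBar →ₐ[ℚ] PadicAlgCl 2} (h₁ : ‖ι₁ w‖ < 1) (h₂ : ‖ι₂ (1 - w)‖ < 1) :
    ∃ (e : Fin 2 → ℕ → Pts w t d) (ρ : Gal w →* Matrix (Fin 2) (Fin 2) ℤ_[2]),
      Frame ι₁ ι₂ t d e ρ ∧ Pool.Agent.R384.Rho hw t.a t.b t.c r I ι₁ ι₂ ρ := by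
  have hld := ld hw ht hd
  obtain ⟨e, ρ, hb, ha, hk1, hk2, hρ⟩ := Pool.Agent.R384.exists_rho hw hld hr hI
    (Pool.Agent.R384.unit_norm hw hd ι₁) (Pool.Agent.R384.unit_norm hw hd ι₂)
    (Pool.Agent.R384.unit_norm hw ht.odd ι₁) (Pool.Agent.R384.unit_norm hw ht.odd ι₂)
    (Pool.Agent.R384.quarter hw ht.two.1 h₁) (Pool.Agent.R384.quarter' hw ht.two.2 h₂)
  set T := tr (curve_eq hw (t := t) (d := d)) with hT
  refine ⟨fun s n => T.symm (e s n), ρ, ⟨⟨?_, ?_, ?_, ?_⟩, ?_, ?_, ?_⟩, hρ⟩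
  · intro s
    show T.symm (e s 0) = 0
    rw [hb.zero, map_zero]
  · intro s n
    show T.symm (e s (n + 1)) + T.symm (e s (n + 1)) = T.symm (e s n)
    rw [← map_add, hb.dbl]
  · intro n P hP
    have h1 : (2 ^ n : ℤ) • T P = 0 := by rw [← map_zsmul, hP, map_zero]
    obtain ⟨k, hk⟩ := hb.span n _ h1
    refine ⟨k, ?_⟩
    apply T.injective
    rw [map_sum, hk]
    refine Finset.sum_congr rfl fun s _ => ?_
    rw [map_zsmul, T.apply_symm_apply]
  · intro n k hk
    apply hb.indep n k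
    have h1 := congrArg T hk
    rw [map_sum, map_zero] at h1
    rw [← h1]
    refine Finset.sum_congr rfl fun s _ => ?_
    rw [map_zsmul, T.apply_symm_apply]
  · intro σ n k hk s
    show act σ (T.symm (e s n)) = ∑ i, k i s • T.symm (e i n)
    apply T.injective
    rw [hT, tr_act hw hld σ, ← hT, T.apply_symm_apply, ha σ n k hk s, map_sum]
    refine Finset.sum_congr rfl fun i _ => ?_
    rw [map_zsmul, T.apply_symm_apply]
  · intro n
    apply inKer_iff hw
    rw [← hT, T.apply_symm_apply]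
    exact hk1 n
  · intro n
    apply inKer_iff' hw hld
    rw [← hT, T.apply_symm_apply]
    exact hk2 n

end proof

theorem result :
    (∀ (N : ℕ) (q : Fin N → OK) (D s : OK), Good q D → ∀ (n : ℕ) (t : Fin n → Triple)
      (d : Fin n → OK), (∀ k, (t k).Adm ∧ IsCoprime (d k) 2) → ∏ k, d k = D * s ^ 2 →
      (∀ k, Fine (t k) ∧ NonSquare (t k) D) → ∀ w : QBar, w ^ 2 = w - 2 →
      (∀ k, (E w (t k) (d k)).IsElliptic) ∧ ∀ ι₁ ι₂ : QBar →ₐ[ℚ] PadicAlgCl 2, ‖ι₁ w‖ < 1 →
        ‖ι₂ (1 - w)‖ < 1 → ∃ (e : ∀ k, Fin 2 → ℕ → Pts w (t k) (d k))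
          (ρ : Fin n → Gal w →* Matrix (Fin 2) (Fin 2) ℤ_[2]),
          (∀ k, Frame ι₁ ι₂ (t k) (d k) (e k) (ρ k)) ∧
          ∀ i : ℕ, n ≤ 2 * i + 1 → SemistableZero ι₁ ι₂ i (tens ρ (cyc w) i)) ∧
    (∀ F : Finset Triple, (∀ t ∈ F, t.Adm ∧ Fine t) →
      {D : OK | (∃ q : Fin 2 → OK, Good q D) ∧ ∀ t ∈ F, NonSquare t D}.Infinite) ∧
    ∃ t : ℕ → Triple, ∀ m, (t m).Adm ∧ Fine (t m) ∧
      (1 ≤ m → ∃ π, BadPrime (t m) π ∧ π ∣ (t m).a ∧ ¬ π ∣ (t m).b * (t m).c ∧
        ∀ k < m, ¬ BadPrime (t k) π) := by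
  refine ⟨?_, ?_, ?_⟩
  · intro N q D s hg n t d ht hprod hbad w hw
    refine ⟨fun k => elliptic (ht k).1 (ht k).2 hw, ?_⟩
    intro ι₁ ι₂ h₁ h₂
    have hpr : ∀ j, Pool.Agent.R384.Pr (q j) := fun j => ⟨hg.prime j, hg.one j⟩
    have hs : s ≠ 0 := by
      rintro rfl
      rw [zero_pow two_ne_zero, mul_zero] at hprod
      obtain ⟨k, _, hk⟩ := Finset.prod_eq_zero_iff.1 hprod
      exact d_ne (ht k).2 hk
    have hrk : ∀ k, ∃ r : QBar, r ^ 2 = Pool.Agent.R384.em hw (d k) := fun k =>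
      IsAlgClosed.exists_pow_nat_eq _ (by norm_num)
    choose rk hrk using hrk
    obtain ⟨I, hI⟩ : ∃ I : QBar, I ^ 2 = -1 := IsAlgClosed.exists_pow_nat_eq _ (by norm_num)
    have hs' := Pool.Agent.R384.em_ne hw hs
    have hrs : (∏ k, rk k) / Pool.Agent.R384.em hw s * Pool.Agent.R384.em hw s = ∏ k, rk k :=
      div_mul_cancel₀ _ hs'
    have hr : ((∏ k, rk k) / Pool.Agent.R384.em hw s) ^ 2 = Pool.Agent.R384.em hw D := by
      rw [div_pow, ← Finset.prod_pow, div_eq_iff (pow_ne_zero _ hs')]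
      simp only [hrk]
      rw [← map_prod, hprod, map_mul, map_pow]
    have hfr := fun k => exists_frame hw (ht k).1 (ht k).2 (hrk k) hI h₁ h₂
    choose e ρ hfr hρ using hfr
    refine ⟨e, ρ, hfr, ?_⟩
    intro i hni c hc hsel
    have hA : ∀ (σ : Gal w) (v : (Fin n → Fin 2) → ℚ_[2]),
        tens ρ (cyc w) i σ v = Pool.Agent.R384.tR ρ (Pool.Agent.R384.cyc w) i σ v := by
      intro σ v
      funext α
      rw [Pool.Agent.R384.tR_apply]
      rfl
    have hf : Pool.Agent.R384.VCoc (Pool.Agent.R384.tR ρ (Pool.Agent.R384.cyc w) i) c :=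
      ⟨hc.cont, fun σ τ => by rw [hc.mul, hA]⟩
    obtain ⟨y, hy⟩ := Pool.Agent.N842.prod_vanish' hw hpr hg.inj hg.five hg.indec hg.prod hr hI h₁ h₂
      hni hρ hrk hs hrs (fun k => (ht k).1.ne)
      (fun k π hπ h2 hd => ⟨(hbad k).1 π ⟨hπ, h2, hd⟩, (hbad k).2 π ⟨hπ, h2, hd⟩⟩) hf
      (fun p _ ι hp => by
        obtain ⟨y, hy⟩ := hsel.odd p ι hp
        refine ⟨y, fun σ hσ => ?_⟩
        funext α
        rw [hy σ hσ α (Set.mem_univ _), hA]
        rfl)
      (by
        obtain ⟨y, hy⟩ := hsel.two₁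
        refine ⟨y, fun σ hσ α hα => ?_⟩
        rw [hy σ hσ α hα, hA]
        rfl)
      (by
        obtain ⟨y, hy⟩ := hsel.two₂
        refine ⟨y, fun σ hσ α hα => ?_⟩
        rw [hy σ hσ α hα, hA]
        rfl)
    refine ⟨y, fun σ _ α _ => ?_⟩
    rw [hy σ, hA]
    rfl
  · intro F hF
    set m : OK := ∏ t ∈ F, t.a * t.b * t.c with hm
    have hm0 : m ≠ 0 := Finset.prod_ne_zero_iff.2 fun t ht => (hF t ht).1.ne
    refine (Pool.Agent.R384.inf2 hm0 ?_).mono ?_
    · intro π hπ h2 hd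
      obtain ⟨t, ht, hd'⟩ := hπ.exists_mem_finset_dvd hd
      exact (hF t ht).2 π ⟨hπ, h2, hd'⟩
    · rintro D ⟨⟨q, hq, hD⟩, hns⟩
      refine ⟨⟨q, fun i => (hq.pr i).prime, fun i => (hq.pr i).one, hq.inj, Or.inl hD, hq.five,
        hq.ind⟩, ?_⟩
      rintro t ht π ⟨hπ, h2, hd⟩
      exact hns π hπ h2 (hd.trans (Finset.dvd_prod_of_mem (fun t : Triple => t.a * t.b * t.c) ht))
  · choose a b c h using Pool.Agent.R384.exists_tri
    refine ⟨fun m => ⟨a m, b m, c m⟩, fun m => ⟨⟨(h m).pyth, (h m).ne, (h m).odd,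
      ⟨(h m).b_dvd, (h m).c_dvd⟩⟩, ?_, ?_⟩⟩
    · rintro π ⟨hπ, h2, hd⟩
      exact (h m).neg hπ h2 hd
    · intro hm
      obtain ⟨π, hπ, h2, hd, hnd, hk⟩ := (h m).new hm
      refine ⟨π, ⟨hπ, h2, ?_⟩, hd, hnd, ?_⟩
      · exact Dvd.dvd.mul_right (Dvd.dvd.mul_right hd _) _
      · rintro k hkm ⟨_, _, h3⟩
        exact hk k _ _ _ hkm (h k) h3

end Pool.Agent.Results.MP_76188c_nt.ProductsAllTwists
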